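import Pool.Agent.Lib.MP_9f8414_nt.Final3

/-!
# Only finitely many numbers are both recursively highly composite and recursively super-abundant

The definitions `a`, `b`, `RecursivelyHighlyComposite`, `RecursivelySuperAbundant` are in
`Pool/Agent/Lib/MP_9f8414_nt/Defs.lean`.
-/

namespace Pool.Agent.Results.MP_9f8414_nt.FinitelyManyBoth

open Pool.Agent.Lib.MP_9f8414_nt

/-- Only finitely many positive integers are simultaneously recursively highly composite and
recursively super-abundant. -/
theorem result :
    {n : ℕ | RecursivelyHighlyComposite n ∧ RecursivelySuperAbundant n}.Finite :=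
  finite_both

end Pool.Agent.Results.MP_9f8414_nt.FinitelyManyBoth
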